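import Mathlib
import Pool.Agent.J4H15.Win.Suff
import Pool.Agent.J4H15.Win.Nec

/-! MP_474a86_an, Q1: all pairs of windows `(w₁, w₂)` such that the spectral magnitudes of the two
windowed sequences determine every polynomial of degree `n` up to a unimodular constant. -/

set_option autoImplicit false

namespace Pool.Agent.Results.MP_474a86_an.AllWindowPairs

open ComplexConjugate Pool.Agent.J4H15.Win

/-- Let `n ≥ 1` and let `w₁, w₂` be windows, that is, elements of `ℂ^(n+1)`. The pair `(w₁, w₂)` is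
magnitude-determining for degree `n` if and only if the following three conditions hold.

(1) For every `s < n` we have `w₁ n * w₁ s ≠ 0` or `w₂ n * w₂ s ≠ 0`.

(2) For all `0 ≤ s < j < n`, with `k = s + n - j`,
`w₁ j * conj (w₁ s) * (w₂ n * conj (w₂ k)) ≠ w₂ j * conj (w₂ s) * (w₁ n * conj (w₁ k))`.

(3) For every `s < n` we have `|w₁ s * w₂ n| ≠ |w₂ s * w₁ n|`. -/
theorem result (n : ℕ) (hn : 1 ≤ n) (w₁ w₂ : Fin (n + 1) → ℂ) :
    Determining n w₁ w₂ ↔
      (∀ s, s < Fin.last n → w₁ (Fin.last n) * w₁ s ≠ 0 ∨ w₂ (Fin.last n) * w₂ s ≠ 0) ∧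
      (∀ s j k : Fin (n + 1), s < j → j < Fin.last n → (j : ℕ) + k = s + n →
        w₁ j * conj (w₁ s) * (w₂ (Fin.last n) * conj (w₂ k)) ≠
          w₂ j * conj (w₂ s) * (w₁ (Fin.last n) * conj (w₁ k))) ∧
      (∀ s, s < Fin.last n → ‖w₁ s * w₂ (Fin.last n)‖ ≠ ‖w₂ s * w₁ (Fin.last n)‖) :=
  ⟨fun h => ⟨(necessary h).one, (necessary h).two, (necessary h).three⟩,
    fun h => sufficient hn w₁ w₂ ⟨h.1, h.2.1, h.2.2⟩⟩

end Pool.Agent.Results.MP_474a86_an.AllWindowPairs
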